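import Pool.Agent.P.MP_8f87b2_lc.CV.Final

/-- Curves against a grid: for every `d`, every integer polynomial `F` in `d + 2` variables and
every `c`, a randomized word-RAM program decides in time `O(n ^ (2 - 1 / (3200 (d + 2) ^ 5)))`
whether `F (x, y, z) = 0` for some `x` in `A`, `y` in `B` and `z` in `C`, where `A`, `B` are lists
of `n` integers, `C` is a list of `n` points of `ℤ ^ d` and all numbers lie in
`[-n ^ c, n ^ c]`. -/
theorem Pool.Agent.Results.MP_8f87b2_lc.CurvesOnGrid.result
    (d : ℕ) (F : MvPolynomial (Fin (d + 2)) ℤ) (c : ℕ) :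
    Pool.Agent.P.MP_8f87b2_lc.CV.DecidesC F c (2 - 1 / (3200 * (d + 2) ^ 5)) :=
  Pool.Agent.P.MP_8f87b2_lc.CV.decides d F c
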