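import Pool.Agent.P.MP_8f87b2_lc.DT.Final

/-- Integer 3SUM is decided by a deterministic word-RAM program in time `O(n ^ (199 / 100))`. -/
theorem Pool.Agent.Results.MP_8f87b2_lc.Deterministic199.result :
    Pool.Agent.P.MP_8f87b2_lc.DT.DetDecidesInTime (199 / 100) :=
  Pool.Agent.P.MP_8f87b2_lc.DT.decides
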