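import Pool.Agent.P.MP_8f87b2_lc.KS.Final

/-- For every odd `k ≥ 3` and every `c`, integer `k`-SUM on entries in `[-n ^ c, n ^ c]` is decided
by a randomized word-RAM program in time `O(n ^ γ)` for some rational `γ < (k + 1) / 2`. -/
theorem Pool.Agent.Results.MP_8f87b2_lc.OddKSum.result (k c : ℕ) (hk : Odd k) (h3 : 3 ≤ k) :
    ∃ γ : ℚ, γ < ((k : ℚ) + 1) / 2 ∧ Pool.Agent.P.MP_8f87b2_lc.KS.DecidesK k c γ :=
  Pool.Agent.P.MP_8f87b2_lc.KS.decides k c hk h3
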