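import Pool.Agent.P.MP_8f87b2_lc.S2.Final

/-- Integer 3SUM is decided by a randomized word-RAM program in time `O(n ^ (1921 / 1000))`. -/
theorem Pool.Agent.Results.MP_8f87b2_lc.Subquadratic1921.result :
    Pool.Agent.P.MP_8f87b2_lc.DecidesInTime (1921 / 1000) :=
  Pool.Agent.P.MP_8f87b2_lc.S2.decides
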